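import Pool.Agent.Q186.PL.Final

/-!
# Maximally singular solutions of the Dirichlet problem for the p-Laplacian

`X(Ω, p)` is the set of the weak solutions `u ∈ W_0^{1,p}(Ω)` of `- Δ_p u = F`, `F ∈ L^{p'}(Ω)`.
For every bounded open `Ω ⊆ ℝ^N` and every `1 < p < ∞` it contains maximally singular functions.

The proof: let `u_k ∈ X(Ω, p)` have right hand sides `F_k` and singular sets whose dimensions
converge to `s-dim X(Ω, p)`. For suitable `c_k > 0` the series `F = ∑ c_k |F_k|` converges in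
`L^{p'}(Ω)`. Let `v` be the solution for `F`. By the comparison principle
`c_k^{1/(p-1)} u_k ≤ v`, so the singular set of `v` contains those of all `u_k`.
The existence of solutions and the comparison principle are proved in `Pool/Agent/Q186/PL`, by
minimising sequences of test functions.
-/

set_option autoImplicit false

open MeasureTheory Set
open Pool.Agent.Q186.PL

namespace Pool.Agent.Results.MP_83d99e_an.MaximallySingular

/-- **Maximally singular functions exist.** Let `N ≥ 1`, `Ω ⊆ ℝ^N` bounded and open, `1 < p < ∞`.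
(1) `X(Ω, p)` contains a maximally singular function.
(2) Every `u ∈ X(Ω, p)` is almost everywhere below a maximally singular `v ∈ X(Ω, p)`.
(3) For every sequence `u_k ∈ X(Ω, p)` there is `v ∈ X(Ω, p)` whose singular set contains the
singular sets of all `u_k`; in fact `v ≥ t_k u_k` almost everywhere for some `t_k > 0`. -/
theorem result :
    ∀ (N : ℕ), 1 ≤ N → ∀ (Ω : Set (EuclideanSpace ℝ (Fin N))), IsOpen Ω →
      Bornology.IsBounded Ω → ∀ p : ℝ, 1 < p →
    (∃ v, MaxSing Ω (XSet p Ω) v) ∧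
    (∀ u ∈ XSet p Ω, ∃ v, MaxSing Ω (XSet p Ω) v ∧ ∀ᵐ x ∂(volume.restrict Ω), u x ≤ v x) ∧
    (∀ u : ℕ → EuclideanSpace ℝ (Fin N) → ℝ, (∀ k, u k ∈ XSet p Ω) →
      ∃ v ∈ XSet p Ω, (⋃ k, Sing Ω (u k)) ⊆ Sing Ω v ∧ ∃ t : ℕ → ℝ, (∀ k, 0 < t k) ∧
        ∀ k, ∀ᵐ x ∂(volume.restrict Ω), t k * u k x ≤ v x) := by
  intro N hN Ω hΩ hb p hp
  have : Nontrivial (EuclideanSpace ℝ (Fin N)) := by
    apply Module.nontrivial_of_finrank_pos (R := ℝ)
    rw [finrank_euclideanSpace_fin]; omega
  refine ⟨?_, fun u hu => main hΩ hb hp hu, fun u hu => ?_⟩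
  · obtain ⟨u, hu⟩ := X_nonempty hΩ hb hp
    obtain ⟨v, hv, _⟩ := main hΩ hb hp hu
    exact ⟨v, hv⟩
  · obtain ⟨v, hv, t, ht, hle⟩ := dominate hΩ hb hp u hu
    exact ⟨v, hv, iUnion_subset fun k => sing_mono (ht k) (hle k), t, ht, hle⟩

end Pool.Agent.Results.MP_83d99e_an.MaximallySingular
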